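import Mathlib
import Pool.Agent.R165.Comp.Metr
import Pool.Agent.R165.Comp.Tree

/-!
# Compensation functions on the unit ball versus the whole dual (MP_f97503_an, Q1)

For a compact Hausdorff space `K` the following are equivalent: `K` admits a compensation function
on the unit ball of `M(K)`; `K` admits a compensation function; `K` is metrizable.
In particular Q1 has a positive answer.

`M(K)` is `C(K)*` (Riesz), with the weak-star topology (`WeakDual ℝ C(K, ℝ)`).
-/

set_option autoImplicit false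

namespace Pool.Agent.Results.MP_f97503_an.BallImpliesGlobal

open Topology Set Filter

/-- `M(K)`, identified with `C(K)*` by the Riesz representation theorem, with the weak-star
topology. -/
abbrev MK (K : Type*) [TopologicalSpace K] : Type _ := WeakDual ℝ C(K, ℝ)

section defs

variable {K : Type*} [TopologicalSpace K] [CompactSpace K]

/-- The value of the positive part `μ⁺` at a nonnegative function `f`:
`μ⁺(f) = sup {μ(g) : 0 ≤ g ≤ f}`. -/
noncomputable def posPart (μ : MK K) (f : C(K, ℝ)) : ℝ :=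
  sSup {t : ℝ | ∃ g : C(K, ℝ), 0 ≤ g ∧ g ≤ f ∧ μ g = t}

/-- `ν` is a compensation of `μ`: either `μ(K) > 0`, `0 ≤ ν ≤ μ⁺` and `ν(K) = μ(K)`, or
`μ(K) ≤ 0` and `ν = 0`. (`μ(K) = μ(1)`, and `ν ≤ μ⁺` is tested on nonnegative functions.) -/
def IsCompensation (ν μ : MK K) : Prop :=
  (0 < μ 1 ∧ (∀ f : C(K, ℝ), 0 ≤ f → 0 ≤ ν f ∧ ν f ≤ posPart μ f) ∧ ν 1 = μ 1) ∨
    (μ 1 ≤ 0 ∧ ν = 0)

/-- There is an `S`-compensation function: a weak-star to weak-star continuous map on `S` which
assigns to every `μ ∈ S` a compensation of `μ`. -/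
def AdmitsCompensationOn (S : Set (MK K)) : Prop :=
  ∃ ξ : MK K → MK K, ContinuousOn ξ S ∧ ∀ μ ∈ S, IsCompensation (ξ μ) μ

/-- The closed unit ball of `M(K)` for the dual norm (the total variation norm). -/
def unitBall (K : Type*) [TopologicalSpace K] [CompactSpace K] : Set (MK K) :=
  {μ | ‖WeakDual.toStrongDual μ‖ ≤ 1}

end defs

section partA

variable {K : Type*} [TopologicalSpace K] [CompactSpace K]

/-- `(δ_x + δ_y - δ_z) / 3`. -/
noncomputable def mu3 (x y z : K) : MK K :=
  StrongDual.toWeakDual ((1 / 3 : ℝ) • (ContinuousMap.evalCLM ℝ x + ContinuousMap.evalCLM ℝ y -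
    ContinuousMap.evalCLM ℝ z))

theorem mu3_apply (x y z : K) (f : C(K, ℝ)) : mu3 x y z f = 1 / 3 * (f x + f y - f z) := rfl

theorem mu3_mem (x y z : K) : mu3 x y z ∈ unitBall K := by
  show ‖WeakDual.toStrongDual (mu3 x y z)‖ ≤ 1
  refine ContinuousLinearMap.opNorm_le_bound _ zero_le_one fun f => ?_
  show ‖1 / 3 * (f x + f y - f z)‖ ≤ 1 * ‖f‖
  have h1 := f.norm_coe_le_norm x
  have h2 := f.norm_coe_le_norm y
  have h3 := f.norm_coe_le_norm z
  rw [Real.norm_eq_abs, abs_le] at h1 h2 h3 ⊢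
  constructor <;> linarith [h1.1, h1.2, h2.1, h2.2, h3.1, h3.2]

theorem mu3_cont : Continuous fun p : K × K × K => mu3 p.1 p.2.1 p.2.2 := by
  refine WeakDual.continuous_of_continuous_eval fun f => ?_
  show Continuous fun p : K × K × K => 1 / 3 * (f p.1 + f p.2.1 - f p.2.2)
  fun_prop

theorem posPart_le (μ : MK K) (f : C(K, ℝ)) (hf : 0 ≤ f) (b : ℝ)
    (h : ∀ g : C(K, ℝ), 0 ≤ g → g ≤ f → μ g ≤ b) : posPart μ f ≤ b := by
  apply csSup_le
  · exact ⟨_, 0, le_rfl, hf, rfl⟩
  · rintro _ ⟨g, h1, h2, rfl⟩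
    exact h g h1 h2

theorem le_posPart (μ : MK K) (f g : C(K, ℝ)) (h1 : 0 ≤ g) (h2 : g ≤ f) :
    μ g ≤ posPart μ f := by
  apply le_csSup
  · refine ⟨‖WeakDual.toStrongDual μ‖ * ‖f‖, ?_⟩
    rintro _ ⟨g, h1, h2, rfl⟩
    have h3 := (WeakDual.toStrongDual μ).le_opNorm g
    rw [Real.norm_eq_abs] at h3
    refine ((le_abs_self _).trans h3).trans (mul_le_mul_of_nonneg_left ?_ (norm_nonneg _))
    rw [ContinuousMap.norm_le _ (norm_nonneg _)]
    intro x
    have h4 : 0 ≤ g x := h1 x
    have h5 : g x ≤ f x := h2 x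
    have h6 := f.norm_coe_le_norm x
    rw [Real.norm_eq_abs] at h6 ⊢
    rw [abs_of_nonneg h4]
    exact h5.trans ((le_abs_self _).trans h6)
  · exact ⟨g, h1, h2, rfl⟩

theorem metrizable_of_ball [T2Space K] (h : AdmitsCompensationOn (unitBall K)) :
    TopologicalSpace.MetrizableSpace K := by
  classical
  obtain ⟨ξ, hξc, hξ⟩ := h
  -- the measure `ν = ξ(μ)`
  have hν : ∀ x y z : K, (∀ f : C(K, ℝ), 0 ≤ f → 0 ≤ ξ (mu3 x y z) f ∧
      ξ (mu3 x y z) f ≤ posPart (mu3 x y z) f) ∧ ξ (mu3 x y z) 1 = 1 / 3 := by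
    intro x y z
    have h1 : mu3 x y z 1 = 1 / 3 := by rw [mu3_apply]; simp
    rcases hξ _ (mu3_mem x y z) with h2 | h2
    · exact ⟨h2.2.1, by rw [h2.2.2, h1]⟩
    · rw [h1] at h2
      have := h2.1
      norm_num at this
  have hb : ∀ (x y z : K) (f : C(K, ℝ)), 0 ≤ f → ξ (mu3 x y z) f ≤ 1 / 3 * (f x + f y) := by
    intro x y z f hf
    refine ((hν x y z).1 f hf).2.trans (posPart_le _ _ hf _ fun g hg hgf => ?_)
    rw [mu3_apply]
    have h1 : g x ≤ f x := hgf x
    have h2 : g y ≤ f y := hgf y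
    have h3 : 0 ≤ g z := hg z
    linarith
  have hbx : ∀ (x y : K) (f : C(K, ℝ)), 0 ≤ f → ξ (mu3 x y x) f ≤ 1 / 3 * f y := by
    intro x y f hf
    refine ((hν x y x).1 f hf).2.trans (posPart_le _ _ hf _ fun g hg hgf => ?_)
    rw [mu3_apply]
    have h2 : g y ≤ f y := hgf y
    linarith
  have hby : ∀ (x y : K) (f : C(K, ℝ)), 0 ≤ f → ξ (mu3 x y y) f ≤ 1 / 3 * f x := by
    intro x y f hf
    refine ((hν x y y).1 f hf).2.trans (posPart_le _ _ hf _ fun g hg hgf => ?_)
    rw [mu3_apply]
    have h2 : g x ≤ f x := hgf x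
    linarith
  have hnull : ∀ (x y z : K) (f : C(K, ℝ)), f x = 0 → f y = 0 → ξ (mu3 x y z) f = 0 := by
    intro x y z f hx hy
    have h0 : ξ (mu3 x y z) |f| ≤ 0 := by
      have := hb x y z |f| (abs_nonneg f)
      rw [ContinuousMap.abs_apply, ContinuousMap.abs_apply, hx, hy] at this
      simpa using this
    have h1 := ((hν x y z).1 (|f| - f) (sub_nonneg.mpr (le_abs_self f))).1
    have h2 := ((hν x y z).1 (|f| + f) (by
      intro w
      show 0 ≤ |f| w + f w
      rw [ContinuousMap.abs_apply]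
      linarith [neg_abs_le (f w)])).1
    rw [map_sub] at h1
    rw [map_add] at h2
    linarith
  -- Urysohn functions
  have hu : ∀ x y : K, ∃ u : C(K, ℝ), x ≠ y → (u x = 1 ∧ u y = 0 ∧ 0 ≤ u ∧ u ≤ 1) := by
    intro x y
    by_cases hxy : x = y
    · exact ⟨0, fun h => absurd hxy h⟩
    · obtain ⟨u, h1, h2, h3⟩ := exists_continuous_zero_one_of_isClosed
        (isClosed_singleton (x := y)) (isClosed_singleton (x := x))
        (by rw [Set.disjoint_singleton]; exact fun h => hxy h.symm)
      exact ⟨u, fun _ => ⟨h2 rfl, h1 rfl, fun z => (h3 z).1, fun z => (h3 z).2⟩⟩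
  choose u hu using hu
  let lam : K → K → K → ℝ := fun x y z => if x = y then 0 else 3 * ξ (mu3 x y z) (u x y)
  have hlam : ∀ x y z, x ≠ y → lam x y z = 3 * ξ (mu3 x y z) (u x y) := by
    intro x y z hxy
    simp [lam, hxy]
  have hlam' : ∀ x y z (f : C(K, ℝ)), x ≠ y → f x = 1 → f y = 0 →
      lam x y z = 3 * ξ (mu3 x y z) f := by
    intro x y z f hxy hx hy
    rw [hlam x y z hxy]
    have h1 := hu x y hxy
    have h2 := hnull x y z (u x y - f) (by
      show u x y x - f x = 0
      rw [h1.1, hx, sub_self]) (by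
      show u x y y - f y = 0
      rw [h1.2.1, hy, sub_self])
    rw [map_sub] at h2
    linarith
  refine Pool.Agent.R165.Comp.metr lam ?_ ?_ ?_ ?_
  · intro x y z
    by_cases hxy : x = y
    · simp [lam, hxy]
    · rw [hlam x y z hxy]
      have h1 := hu x y hxy
      have h2 := ((hν x y z).1 (u x y) h1.2.2.1).1
      have h3 := ((hν x y z).1 (1 - u x y) (sub_nonneg.mpr h1.2.2.2)).1
      rw [map_sub, (hν x y z).2] at h3
      constructor <;> linarith
  · intro x y z hxy
    obtain ⟨U, hxU, hUo, V, hyV, hVo, hUV⟩ := exists_open_nhds_disjoint_closure hxy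
    obtain ⟨f, hf0, hf1, -⟩ := exists_continuous_zero_one_of_isClosed
      (isClosed_closure (s := V)) (isClosed_closure (s := U)) hUV.symm
    have e1 : Continuous fun p : K × K × K => 3 * ξ (mu3 p.1 p.2.1 p.2.2) f := by
      have e2 : Continuous fun p : K × K × K => ξ (mu3 p.1 p.2.1 p.2.2) :=
        hξc.comp_continuous mu3_cont fun p => mu3_mem _ _ _
      exact continuous_const.mul ((WeakDual.eval_continuous f).comp e2)
    refine e1.continuousAt.congr ?_
    have e3 : ∀ᶠ p : K × K × K in 𝓝 (x, y, z), p.1 ∈ U ∧ p.2.1 ∈ V := by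
      have h1 : ∀ᶠ p : K × K × K in 𝓝 (x, y, z), p.1 ∈ U :=
        continuousAt_fst.eventually (hUo.mem_nhds hxU)
      have h2 : ∀ᶠ p : K × K × K in 𝓝 (x, y, z), p.2.1 ∈ V := by
        have : ContinuousAt (fun p : K × K × K => p.2.1) (x, y, z) := by fun_prop
        exact this.eventually (hVo.mem_nhds hyV)
      exact h1.and h2
    filter_upwards [e3] with p hp
    have hne : p.1 ≠ p.2.1 := by
      intro heq
      have h1 : p.1 ∈ closure U := subset_closure hp.1
      have h2 : p.1 ∈ closure V := by rw [heq]; exact subset_closure hp.2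
      exact Set.disjoint_left.mp hUV h1 h2
    exact (hlam' _ _ _ f hne (hf1 (subset_closure hp.1)) (hf0 (subset_closure hp.2))).symm
  · intro x y hxy
    rw [hlam x y x hxy]
    have h1 := hu x y hxy
    have h2 := ((hν x y x).1 (u x y) h1.2.2.1).1
    have h3 := hbx x y (u x y) h1.2.2.1
    rw [h1.2.1] at h3
    linarith
  · intro x y hxy
    rw [hlam x y y hxy]
    have h1 := hu x y hxy
    have h2 := ((hν x y y).1 (1 - u x y) (sub_nonneg.mpr h1.2.2.2)).1
    have h3 := hby x y (1 - u x y) (sub_nonneg.mpr h1.2.2.2)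
    have h4 : (1 - u x y) x = 0 := by
      show 1 - u x y x = 0
      rw [h1.1, sub_self]
    rw [h4] at h3
    rw [map_sub, (hν x y y).2] at h2 h3
    linarith

end partA

section partB

variable {K : Type*} [TopologicalSpace K] [CompactSpace K]

theorem global_of_metrizable [TopologicalSpace.MetrizableSpace K] :
    AdmitsCompensationOn (univ : Set (MK K)) := by
  rcases isEmpty_or_nonempty K with hK | hK
  · refine ⟨fun _ => 0, continuousOn_const, fun μ _ => Or.inr ⟨?_, rfl⟩⟩
    have : (1 : C(K, ℝ)) = 0 := by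
      ext x
      exact hK.elim x
    rw [this, map_zero]
  · obtain ⟨ξ, h1, h2, h3, h4⟩ := Pool.Agent.R165.Comp.tree (K := K)
    refine ⟨ξ, h1.continuousOn, fun μ _ => ?_⟩
    by_cases hμ : 0 < μ 1
    · left
      refine ⟨hμ, fun f hf => ⟨h2 μ f hf, ?_⟩, by rw [h3, max_eq_left hμ.le]⟩
      apply le_of_forall_pos_le_add
      intro ε hε
      obtain ⟨g, hg0, hgf, hg⟩ := h4 μ f hf ε hε
      have := le_posPart μ f g hg0 hgf
      linarith
    · right
      have hμ' : μ 1 ≤ 0 := not_lt.mp hμ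
      refine ⟨hμ', ?_⟩
      have h5 : ξ μ 1 = 0 := by rw [h3, max_eq_right hμ']
      apply ContinuousLinearMap.ext
      intro f
      show ξ μ f = 0
      have e1 := h2 μ (‖f‖ • (1 : C(K, ℝ)) - f) (by
        intro x
        have := f.norm_coe_le_norm x
        rw [Real.norm_eq_abs, abs_le] at this
        show 0 ≤ ‖f‖ * 1 - f x
        linarith [this.2])
      have e2 := h2 μ (‖f‖ • (1 : C(K, ℝ)) + f) (by
        intro x
        have := f.norm_coe_le_norm x
        rw [Real.norm_eq_abs, abs_le] at this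
        show 0 ≤ ‖f‖ * 1 + f x
        linarith [this.1])
      rw [map_sub, map_smul, h5, smul_zero] at e1
      rw [map_add, map_smul, h5, smul_zero] at e2
      linarith

end partB

/-- For a compact Hausdorff space `K`: there is a compensation function on the unit ball of `M(K)`
if and only if there is one on all of `M(K)`, if and only if `K` is metrizable. The implication
from the left to the right in the first equivalence is the positive answer to Q1. -/
theorem result (K : Type*) [TopologicalSpace K] [CompactSpace K] [T2Space K] :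
    (AdmitsCompensationOn (unitBall K) ↔ AdmitsCompensationOn (univ : Set (MK K))) ∧
    (AdmitsCompensationOn (unitBall K) ↔ TopologicalSpace.MetrizableSpace K) := by
  have h1 : AdmitsCompensationOn (unitBall K) → TopologicalSpace.MetrizableSpace K :=
    metrizable_of_ball
  have h2 : TopologicalSpace.MetrizableSpace K → AdmitsCompensationOn (univ : Set (MK K)) :=
    fun h => global_of_metrizable
  have h3 : AdmitsCompensationOn (univ : Set (MK K)) → AdmitsCompensationOn (unitBall K) := by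
    rintro ⟨ξ, hc, hξ⟩
    exact ⟨ξ, hc.mono (subset_univ _), fun μ _ => hξ μ (mem_univ μ)⟩
  exact ⟨⟨fun h => h2 (h1 h), h3⟩, ⟨h1, fun h => h3 (h2 h)⟩⟩

end Pool.Agent.Results.MP_f97503_an.BallImpliesGlobal
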